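import Mathlib
import Pool.Agent.helper68.S2.Bd

/-!
# Static Polyak-Lojasiewicz inequality, part A: algebra of the bracket
-/

set_option autoImplicit false

open MeasureTheory Metric Set Filter
open scoped ContDiff Topology

namespace Pool.Agent.helper68.S2

namespace PLx

/-- the rotation derivatives of the coordinates -/
theorem X_co_apply (i k : Fin 3) (p : Sph) : X i (co k) p = (cr i (p : E3)) k := by
  have h1 := hasDerivAt_act_rot i (co k) p 0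
  rw [rot_act_zero] at h1
  have h2 := hasDerivAt_rot i (p : E3) 0
  rw [rot_zero] at h2
  have h3 : HasDerivAt (fun s => (rot i s (p : E3)) k) ((cr i (p : E3)) k) 0 :=
    ((EuclideanSpace.proj (𝕜 := ℝ) k).hasFDerivAt.comp_hasDerivAt (0 : ℝ) h2)
  exact h1.unique h3

theorem X_co00 : X 0 (co 0) = 0 := ssext fun p => by rw [X_co_apply]; rfl
theorem X_co01 : X 0 (co 1) = - co 2 := ssext fun p => by rw [X_co_apply]; rfl
theorem X_co02 : X 0 (co 2) = co 1 := ssext fun p => by rw [X_co_apply]; rfl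
theorem X_co10 : X 1 (co 0) = co 2 := ssext fun p => by rw [X_co_apply]; rfl
theorem X_co11 : X 1 (co 1) = 0 := ssext fun p => by rw [X_co_apply]; rfl
theorem X_co12 : X 1 (co 2) = - co 0 := ssext fun p => by rw [X_co_apply]; rfl
theorem X_co20 : X 2 (co 0) = - co 1 := ssext fun p => by rw [X_co_apply]; rfl
theorem X_co21 : X 2 (co 1) = co 0 := ssext fun p => by rw [X_co_apply]; rfl
theorem X_co22 : X 2 (co 2) = 0 := ssext fun p => by rw [X_co_apply]; rfl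

theorem Lap_co (k : Fin 3) : Lap (co k) = (-2 : ℝ) • co k := by
  rw [Lap_eq]
  fin_cases k
  · simp only [Fin.zero_eta, Fin.isValue, X_co00, X_co10, X_co20, map_zero, map_neg, X_co12, X_co21]
    rw [neg_smul, two_smul]; ring
  · simp only [Fin.mk_one, Fin.isValue, X_co01, X_co11, X_co21, map_zero, map_neg, X_co02, X_co20]
    rw [neg_smul, two_smul]; ring
  · simp only [Fin.reduceFinMk, Fin.isValue, X_co02, X_co12, X_co22, map_zero, map_neg, X_co01,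
      X_co10]
    rw [neg_smul, two_smul]; ring

/-- gradient inner product -/
noncomputable def gI (f g : SS) : SS := X 0 f * X 0 g + X 1 f * X 1 g + X 2 f * X 2 g

/-- full second derivative inner product -/
noncomputable def Hs (f g : SS) : SS :=
  X 0 (X 0 f) * X 0 (X 0 g) + X 1 (X 0 f) * X 1 (X 0 g) + X 2 (X 0 f) * X 2 (X 0 g)
  + (X 0 (X 1 f) * X 0 (X 1 g) + X 1 (X 1 f) * X 1 (X 1 g) + X 2 (X 1 f) * X 2 (X 1 g))
  + (X 0 (X 2 f) * X 0 (X 2 g) + X 1 (X 2 f) * X 1 (X 2 g) + X 2 (X 2 f) * X 2 (X 2 g))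

/-- the bracket -/
noncomputable def Br (f g : SS) : SS := Hs f g - gI f g - (1 / 2 : ℝ) • (Lap f * Lap g)

theorem gI_add_left (f g h : SS) : gI (f + g) h = gI f h + gI g h := by
  unfold gI; simp only [map_add]; ring
theorem gI_add_right (f g h : SS) : gI f (g + h) = gI f g + gI f h := by
  unfold gI; simp only [map_add]; ring
theorem gI_smul_left (c : ℝ) (f g : SS) : gI (c • f) g = c • gI f g := by
  unfold gI; simp only [X_smul, smul_mul_assoc, smul_add]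
theorem gI_smul_right (c : ℝ) (f g : SS) : gI f (c • g) = c • gI f g := by
  unfold gI; simp only [X_smul, mul_smul_comm, smul_add]
theorem gI_comm (f g : SS) : gI f g = gI g f := by
  unfold gI; ring

theorem Hs_add_left (f g h : SS) : Hs (f + g) h = Hs f h + Hs g h := by
  unfold Hs; simp only [map_add]; ring
theorem Hs_smul_left (c : ℝ) (f g : SS) : Hs (c • f) g = c • Hs f g := by
  unfold Hs; simp only [X_smul, smul_mul_assoc, smul_add]

theorem Br_add_left (f g h : SS) : Br (f + g) h = Br f h + Br g h := by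
  unfold Br
  rw [Hs_add_left, gI_add_left, map_add, add_mul, smul_add]
  ring
theorem Br_smul_left (c : ℝ) (f g : SS) : Br (c • f) g = c • Br f g := by
  unfold Br
  rw [Hs_smul_left, gI_smul_left, map_smul, smul_mul_assoc, smul_comm (1 / 2 : ℝ) c, smul_sub,
    smul_sub]

theorem Br_one (h : SS) : Br 1 h = 0 := by
  unfold Br Hs gI
  rw [Lap_eq]
  simp only [X_one_ss, map_zero, zero_mul, add_zero, sub_zero, smul_zero]

theorem two_inv_smul_neg_two (f g : SS) : (1 / 2 : ℝ) • ((-2 : ℝ) • f * g) = -(f * g) := by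
  rw [smul_mul_assoc, smul_smul]
  norm_num

theorem Br_co (k : Fin 3) (h : SS) : Br (co k) h = 0 := by
  have hs := co_X_sum h
  have h0 := congrArg (X 0) hs
  have h1 := congrArg (X 1) hs
  have h2 := congrArg (X 2) hs
  simp only [map_add, X_mul, X_co00, X_co01, X_co02, X_co10, X_co11, X_co12, X_co20, X_co21,
    X_co22, map_zero] at h0 h1 h2
  unfold Br
  rw [Lap_co, two_inv_smul_neg_two, Lap_eq]
  unfold Hs gI
  fin_cases k
  · simp only [Fin.zero_eta, Fin.isValue, X_co00, X_co01, X_co02, X_co10, X_co11, X_co12, X_co20,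
      X_co21, X_co22, map_zero, map_neg]
    linear_combination h0
  · simp only [Fin.mk_one, Fin.isValue, X_co00, X_co01, X_co02, X_co10, X_co11, X_co12, X_co20,
      X_co21, X_co22, map_zero, map_neg]
    linear_combination h1
  · simp only [Fin.reduceFinMk, Fin.isValue, X_co00, X_co01, X_co02, X_co10, X_co11, X_co12,
      X_co20, X_co21, X_co22, map_zero, map_neg]
    linear_combination h2

/-- affine functions -/
noncomputable def aff (a : ℝ) (b : Fin 3 → ℝ) : SS :=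
  a • 1 + (b 0 • co 0 + b 1 • co 1 + b 2 • co 2)

theorem Br_aff (a : ℝ) (b : Fin 3 → ℝ) (h : SS) : Br (aff a b) h = 0 := by
  unfold aff
  rw [Br_add_left, Br_add_left, Br_add_left, Br_smul_left, Br_smul_left, Br_smul_left,
    Br_smul_left, Br_one, Br_co, Br_co, Br_co]
  simp

theorem Br_apply (f g : SS) (p : Sph) : Br f g p =
    X 0 (X 0 f) p * X 0 (X 0 g) p + X 1 (X 0 f) p * X 1 (X 0 g) p + X 2 (X 0 f) p * X 2 (X 0 g) p
  + (X 0 (X 1 f) p * X 0 (X 1 g) p + X 1 (X 1 f) p * X 1 (X 1 g) p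
    + X 2 (X 1 f) p * X 2 (X 1 g) p)
  + (X 0 (X 2 f) p * X 0 (X 2 g) p + X 1 (X 2 f) p * X 1 (X 2 g) p
    + X 2 (X 2 f) p * X 2 (X 2 g) p)
  - (X 0 f p * X 0 g p + X 1 f p * X 1 g p + X 2 f p * X 2 g p)
  - 1 / 2 * ((X 0 (X 0 f) p + X 1 (X 1 f) p + X 2 (X 2 f) p)
    * (X 0 (X 0 g) p + X 1 (X 1 g) p + X 2 (X 2 g) p)) := by
  unfold Br Hs gI
  rw [Lap_eq, Lap_eq]
  rfl

/-- linear algebra behind the positivity of the bracket -/
theorem alg_pos (x y g : Fin 3 → ℝ) (a : Fin 3 → Fin 3 → ℝ)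
    (hx : x 0 ^ 2 + x 1 ^ 2 + x 2 ^ 2 = 1)
    (hy0 : y 0 = g 1 * x 2 - g 2 * x 1) (hy1 : y 1 = g 2 * x 0 - g 0 * x 2)
    (hy2 : y 2 = g 0 * x 1 - g 1 * x 0)
    (hg : x 0 * g 0 + x 1 * g 1 + x 2 * g 2 = 0)
    (h0 : x 0 * a 0 0 + x 1 * a 0 1 + x 2 * a 0 2 = y 0)
    (h1 : x 0 * a 1 0 + x 1 * a 1 1 + x 2 * a 1 2 = y 1)
    (h2 : x 0 * a 2 0 + x 1 * a 2 1 + x 2 * a 2 2 = y 2) :
    0 ≤ (a 0 0 ^ 2 + a 1 0 ^ 2 + a 2 0 ^ 2) + (a 0 1 ^ 2 + a 1 1 ^ 2 + a 2 1 ^ 2)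
      + (a 0 2 ^ 2 + a 1 2 ^ 2 + a 2 2 ^ 2) - (g 0 ^ 2 + g 1 ^ 2 + g 2 ^ 2)
      - 1 / 2 * (a 0 0 + a 1 1 + a 2 2) ^ 2 := by
  have hyy : y 0 ^ 2 + y 1 ^ 2 + y 2 ^ 2 = g 0 ^ 2 + g 1 ^ 2 + g 2 ^ 2 := by
    rw [hy0, hy1, hy2]
    linear_combination (g 0 ^ 2 + g 1 ^ 2 + g 2 ^ 2) * hx
      - (x 0 * g 0 + x 1 * g 1 + x 2 * g 2) * hg
  set t := a 0 0 + a 1 1 + a 2 2 with ht
  have hxy : x 0 * y 0 + x 1 * y 1 + x 2 * y 2 = 0 := by
    rw [hy0, hy1, hy2]; ring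
  have key : (a 0 0 ^ 2 + a 1 0 ^ 2 + a 2 0 ^ 2) + (a 0 1 ^ 2 + a 1 1 ^ 2 + a 2 1 ^ 2)
      + (a 0 2 ^ 2 + a 1 2 ^ 2 + a 2 2 ^ 2) - (g 0 ^ 2 + g 1 ^ 2 + g 2 ^ 2)
      - 1 / 2 * t ^ 2
      = (a 0 0 - y 0 * x 0 - t / 2 * (1 - x 0 * x 0)) ^ 2
      + (a 1 1 - y 1 * x 1 - t / 2 * (1 - x 1 * x 1)) ^ 2
      + (a 2 2 - y 2 * x 2 - t / 2 * (1 - x 2 * x 2)) ^ 2
      + (a 0 1 - y 0 * x 1 + t / 2 * (x 0 * x 1)) ^ 2
      + (a 0 2 - y 0 * x 2 + t / 2 * (x 0 * x 2)) ^ 2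
      + (a 1 0 - y 1 * x 0 + t / 2 * (x 1 * x 0)) ^ 2
      + (a 1 2 - y 1 * x 2 + t / 2 * (x 1 * x 2)) ^ 2
      + (a 2 0 - y 2 * x 0 + t / 2 * (x 2 * x 0)) ^ 2
      + (a 2 1 - y 2 * x 1 + t / 2 * (x 2 * x 1)) ^ 2 := by
    have e1 : (a 0 0 - y 0 * x 0 - t / 2 * (1 - x 0 * x 0)) ^ 2
      + (a 1 1 - y 1 * x 1 - t / 2 * (1 - x 1 * x 1)) ^ 2
      + (a 2 2 - y 2 * x 2 - t / 2 * (1 - x 2 * x 2)) ^ 2
      + (a 0 1 - y 0 * x 1 + t / 2 * (x 0 * x 1)) ^ 2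
      + (a 0 2 - y 0 * x 2 + t / 2 * (x 0 * x 2)) ^ 2
      + (a 1 0 - y 1 * x 0 + t / 2 * (x 1 * x 0)) ^ 2
      + (a 1 2 - y 1 * x 2 + t / 2 * (x 1 * x 2)) ^ 2
      + (a 2 0 - y 2 * x 0 + t / 2 * (x 2 * x 0)) ^ 2
      + (a 2 1 - y 2 * x 1 + t / 2 * (x 2 * x 1)) ^ 2
      = (a 0 0 ^ 2 + a 1 0 ^ 2 + a 2 0 ^ 2) + (a 0 1 ^ 2 + a 1 1 ^ 2 + a 2 1 ^ 2)
      + (a 0 2 ^ 2 + a 1 2 ^ 2 + a 2 2 ^ 2)
      - 2 * (y 0 * (x 0 * a 0 0 + x 1 * a 0 1 + x 2 * a 0 2)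
          + y 1 * (x 0 * a 1 0 + x 1 * a 1 1 + x 2 * a 1 2)
          + y 2 * (x 0 * a 2 0 + x 1 * a 2 1 + x 2 * a 2 2))
      + (y 0 ^ 2 + y 1 ^ 2 + y 2 ^ 2) * (x 0 ^ 2 + x 1 ^ 2 + x 2 ^ 2)
      - t * ((a 0 0 + a 1 1 + a 2 2)
          - (x 0 * (x 0 * a 0 0 + x 1 * a 0 1 + x 2 * a 0 2)
          + x 1 * (x 0 * a 1 0 + x 1 * a 1 1 + x 2 * a 1 2)
          + x 2 * (x 0 * a 2 0 + x 1 * a 2 1 + x 2 * a 2 2)))
      + t * ((x 0 * y 0 + x 1 * y 1 + x 2 * y 2)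
          - (x 0 * y 0 + x 1 * y 1 + x 2 * y 2) * (x 0 ^ 2 + x 1 ^ 2 + x 2 ^ 2))
      + t ^ 2 / 4 * (3 - 2 * (x 0 ^ 2 + x 1 ^ 2 + x 2 ^ 2)
          + (x 0 ^ 2 + x 1 ^ 2 + x 2 ^ 2) ^ 2) := by ring
    rw [e1, hx, h0, h1, h2, hxy, ← ht]
    linear_combination hyy
  rw [key]
  positivity

theorem Br_self_nonneg (h : SS) (p : Sph) : 0 ≤ Br h h p := by
  have hs := co_X_sum h
  have e : ∀ f : SS, f = 0 → f p = 0 := fun f hf => by rw [hf]; rfl
  have cs := e _ hs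
  have f0 : co 0 p * X 0 (X 0 h) p + co 1 p * X 0 (X 1 h) p + co 2 p * X 0 (X 2 h) p
      = X 1 h p * co 2 p - X 2 h p * co 1 p := by
    have := congrArg (X 0) hs
    simp only [map_add, X_mul, X_co00, X_co01, X_co02, map_zero] at this
    have := e _ this
    simp only [ss_add, ss_mul, ss_neg, ss_zero] at this
    linarith
  have f1 : co 0 p * X 1 (X 0 h) p + co 1 p * X 1 (X 1 h) p + co 2 p * X 1 (X 2 h) p
      = X 2 h p * co 0 p - X 0 h p * co 2 p := by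
    have := congrArg (X 1) hs
    simp only [map_add, X_mul, X_co10, X_co11, X_co12, map_zero] at this
    have := e _ this
    simp only [ss_add, ss_mul, ss_neg, ss_zero] at this
    linarith
  have f2 : co 0 p * X 2 (X 0 h) p + co 1 p * X 2 (X 1 h) p + co 2 p * X 2 (X 2 h) p
      = X 0 h p * co 1 p - X 1 h p * co 0 p := by
    have := congrArg (X 2) hs
    simp only [map_add, X_mul, X_co20, X_co21, X_co22, map_zero] at this
    have := e _ this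
    simp only [ss_add, ss_mul, ss_neg, ss_zero] at this
    linarith
  have cs : co 0 p * X 0 h p + co 1 p * X 1 h p + co 2 p * X 2 h p = 0 := cs
  have key := alg_pos (fun i => co i p) ![X 1 h p * co 2 p - X 2 h p * co 1 p,
    X 2 h p * co 0 p - X 0 h p * co 2 p, X 0 h p * co 1 p - X 1 h p * co 0 p]
    (fun i => X i h p) (fun j i => X j (X i h) p) (co_sq p) rfl rfl rfl cs f0 f1 f2
  rw [Br_apply]
  linarith [key]

end PLx

end Pool.Agent.helper68.S2
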