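import Mathlib
import Pool.Agent.helper99.S2P.A

/-!
# Static Polyak-Lojasiewicz inequality, part B: the integral identity and its consequence
-/

set_option autoImplicit false

open MeasureTheory Metric Set Filter
open scoped ContDiff Topology

namespace Pool.Agent.helper68.S2

namespace PLx

/-- the curvature of `w⁻² ds²` -/
noncomputable def Kc (w : SS) : SS := w * Lap w - gI w w + w * w

theorem bracket_pointwise {w iw : SS} (h : iw * w = 1) (hX : ∀ i, X i iw = -(iw * iw * X i w))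
    (δ : SS) :
    iw * Hs w δ + iw * Hs w δ - (iw * gI w δ + iw * gI w δ) - iw * (Lap w * Lap δ)
      + iw * iw * gI (Kc w) δ
    = X 0 (iw * (X 0 (X 0 w) * X 0 δ + X 0 (X 1 w) * X 1 δ + X 0 (X 2 w) * X 2 δ)
        + iw * (X 0 (X 0 w) * X 0 δ + X 0 (X 1 w) * X 1 δ + X 0 (X 2 w) * X 2 δ)
        - iw * Lap w * X 0 δ)
      + X 1 (iw * (X 1 (X 0 w) * X 0 δ + X 1 (X 1 w) * X 1 δ + X 1 (X 2 w) * X 2 δ)
        + iw * (X 1 (X 0 w) * X 0 δ + X 1 (X 1 w) * X 1 δ + X 1 (X 2 w) * X 2 δ)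
        - iw * Lap w * X 1 δ)
      + X 2 (iw * (X 2 (X 0 w) * X 0 δ + X 2 (X 1 w) * X 1 δ + X 2 (X 2 w) * X 2 δ)
        + iw * (X 2 (X 0 w) * X 0 δ + X 2 (X 1 w) * X 1 δ + X 2 (X 2 w) * X 2 δ)
        - iw * Lap w * X 2 δ) := by
  have l0 := Lap_X 0 w
  have l1 := Lap_X 1 w
  have l2 := Lap_X 2 w
  have c01 := comm01 w
  have c12 := comm12 w
  have c20 := comm20 w
  unfold Kc Hs gI
  simp only [Lap_eq, map_add, map_sub, X_mul, hX] at *
  linear_combination (2 * iw * (X 0 w * X 0 δ + X 1 w * X 1 δ + X 2 w * X 2 δ)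
      + iw * ((X 0 (X 0 (X 0 w)) + X 0 (X 1 (X 1 w)) + X 0 (X 2 (X 2 w))) * X 0 δ
        + (X 1 (X 0 (X 0 w)) + X 1 (X 1 (X 1 w)) + X 1 (X 2 (X 2 w))) * X 1 δ
        + (X 2 (X 0 (X 0 w)) + X 2 (X 1 (X 1 w)) + X 2 (X 2 (X 2 w))) * X 2 δ)) * h
    - 2 * iw * (X 0 δ * l0 + X 1 δ * l1 + X 2 δ * l2)
    + 2 * iw * iw * ((X 0 w * X 1 δ - X 1 w * X 0 δ) * c01
      + (X 1 w * X 2 δ - X 2 w * X 1 δ) * c12 + (X 2 w * X 0 δ - X 0 w * X 2 δ) * c20)

theorem two_I_bracket {w iw : SS} (h : iw * w = 1) (hX : ∀ i, X i iw = -(iw * iw * X i w))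
    (δ : SS) : 2 * I (iw * Br w δ) = - I (iw * iw * gI (Kc w) δ) := by
  have h1 := congrArg I (bracket_pointwise h hX δ)
  simp only [map_add, I_X, map_sub] at h1
  unfold Br
  rw [mul_sub, mul_sub, mul_smul_comm, map_sub, map_sub, map_smul, smul_eq_mul]
  linarith

theorem second_ibp {w iw : SS} (hX : ∀ i, X i iw = -(iw * iw * X i w)) (c : ℝ) (K δ : SS) :
    - I (iw * iw * gI K δ) = I ((K - algebraMap ℝ SS c) *
      (iw * iw * Lap δ - 2 * (iw * iw * iw) * gI w δ)) := by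
  set k := K - algebraMap ℝ SS c with hk
  have hXk : ∀ i, X i k = X i K := fun i => by rw [hk, map_sub, X_algebraMap, sub_zero]
  have h1 : X 0 (k * (iw * iw * X 0 δ)) + X 1 (k * (iw * iw * X 1 δ))
      + X 2 (k * (iw * iw * X 2 δ)) = iw * iw * gI K δ + k *
      (iw * iw * Lap δ - 2 * (iw * iw * iw) * gI w δ) := by
    unfold gI
    simp only [Lap_eq, X_mul, hX, hXk]
    ring
  have h2 := congrArg I h1
  simp only [map_add, I_X] at h2
  linarith

theorem I_Hs_self (δ : SS) : I (Hs δ δ) = I (Lap δ * Lap δ) := by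
  have h1 : ∀ i, I (X 0 (X i δ) * X 0 (X i δ) + X 1 (X i δ) * X 1 (X i δ)
      + X 2 (X i δ) * X 2 (X i δ)) = I (X i (X i δ) * Lap δ) := by
    intro i
    rw [map_add, map_add, ibp 0 (X i δ), ibp 1 (X i δ), ibp 2 (X i δ), ibp i (X i δ) (Lap δ),
      ← Lap_X, Lap_eq]
    simp only [mul_add, map_add]
    ring
  unfold Hs
  rw [map_add, map_add, h1 0, h1 1, h1 2, ← map_add, ← map_add, ← add_mul, ← add_mul, ← Lap_eq]

theorem I_Br_self (δ : SS) : I (Br δ δ) = 1 / 2 * I (Lap δ * Lap δ) - I (gI δ δ) := by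
  unfold Br
  rw [map_sub, map_sub, map_smul, I_Hs_self, smul_eq_mul]
  ring

theorem gI_apply (f g : SS) (p : Sph) : gI f g p = X 0 f p * X 0 g p + X 1 f p * X 1 g p
    + X 2 f p * X 2 g p := rfl

theorem gI_self_nonneg (f : SS) (p : Sph) : 0 ≤ gI f f p := by
  rw [gI_apply]
  nlinarith [mul_self_nonneg (X 0 f p), mul_self_nonneg (X 1 f p), mul_self_nonneg (X 2 f p)]

theorem gI_cs (f g : SS) (p : Sph) : gI f g p ^ 2 ≤ gI f f p * gI g g p := by
  simp only [gI_apply]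
  nlinarith [sq_nonneg (X 0 f p * X 1 g p - X 1 f p * X 0 g p),
    sq_nonneg (X 1 f p * X 2 g p - X 2 f p * X 1 g p),
    sq_nonneg (X 2 f p * X 0 g p - X 0 f p * X 2 g p)]

/-- the second order part controls everything -/
theorem core {w δ : SS} {a : ℝ} {b : Fin 3 → ℝ} (hw : ∀ p, 0 < w p) (hdec : w = aff a b + δ)
    {M : ℝ} (hM : 1 ≤ M) (h1 : ∀ p, w p ≤ M) (h2 : ∀ p, Inv w p ≤ M) (h3 : ∀ p, gI w w p ≤ M)
    (c : ℝ) (hgap : 6 * I (gI δ δ) ≤ I (Lap δ * Lap δ)) :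
    I (Lap δ * Lap δ) ≤ 100 * M ^ 9 *
      I ((Kc w - algebraMap ℝ SS c) * (Kc w - algebraMap ℝ SS c)) := by
  set iw := Inv w with hiw
  have hmul : iw * w = 1 := Inv_mul hw
  have hX : ∀ i, X i iw = -(iw * iw * X i w) := X_Inv hw
  have hiwpos : ∀ p, 0 < iw p := Inv_pos hw
  set k := Kc w - algebraMap ℝ SS c with hk
  set L := I (Lap δ * Lap δ) with hL
  set G := I (gI δ δ) with hG
  have hM0 : 0 < M := by linarith
  -- main identity
  have e1 : 2 * I (iw * Br δ δ) = I (k * (iw * iw * Lap δ - 2 * (iw * iw * iw) * gI w δ)) := by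
    have e2 : Br w δ = Br δ δ := by
      conv_lhs => rw [hdec]
      rw [Br_add_left, Br_aff, zero_add]
    rw [← e2, two_I_bracket hmul hX, second_ibp hX c]
  -- lower bound
  have hiw_lb : ∀ p, 1 / M ≤ iw p := by
    intro p
    rw [hiw, Inv_apply hw, one_div]
    exact inv_anti₀ (hw p) (h1 p)
  have e3 : 1 / M * I (Br δ δ) ≤ I (iw * Br δ δ) := by
    have := I_mono (f := (1 / M) • Br δ δ) (g := iw * Br δ δ) fun p => by
      rw [ss_smul, ss_mul]
      exact mul_le_mul_of_nonneg_right (hiw_lb p) (Br_self_nonneg δ p)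
    rwa [map_smul, smul_eq_mul] at this
  rw [I_Br_self, ← hL, ← hG] at e3
  -- upper bound
  set z := iw * iw * Lap δ - 2 * (iw * iw * iw) * gI w δ with hz
  have e4 : ∀ p, k p * z p ≤ 20 * M ^ 8 * (k p * k p)
      + 1 / (3 * M) * (Lap δ p * Lap δ p + gI δ δ p) := by
    intro p
    have hzp : z p = iw p * iw p * Lap δ p - 2 * (iw p * iw p * iw p) * gI w δ p := rfl
    have hi0 := hiwpos p
    have hi1 := h2 p
    have hg0 := gI_self_nonneg δ p
    have hgw0 := gI_self_nonneg w p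
    have hcs := gI_cs w δ p
    have h3p := h3 p
    have a1 : (gI w δ p) ^ 2 ≤ M * gI δ δ p := hcs.trans (mul_le_mul_of_nonneg_right h3p hg0)
    have a2 : z p ^ 2 ≤ 10 * M ^ 7 * (Lap δ p * Lap δ p + gI δ δ p) := by
      have b1 : z p ^ 2 ≤ 2 * (iw p * iw p * Lap δ p) ^ 2
          + 2 * (2 * (iw p * iw p * iw p) * gI w δ p) ^ 2 := by
        rw [hzp]
        nlinarith [sq_nonneg (iw p * iw p * Lap δ p + 2 * (iw p * iw p * iw p) * gI w δ p)]
      have b2 : (iw p * iw p * Lap δ p) ^ 2 ≤ M ^ 4 * (Lap δ p * Lap δ p) := by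
        have : (iw p * iw p * Lap δ p) ^ 2 = iw p ^ 4 * (Lap δ p * Lap δ p) := by ring
        rw [this]
        exact mul_le_mul_of_nonneg_right (pow_le_pow_left₀ hi0.le hi1 4) (mul_self_nonneg _)
      have b3 : (2 * (iw p * iw p * iw p) * gI w δ p) ^ 2 ≤ 4 * M ^ 7 * gI δ δ p := by
        have : (2 * (iw p * iw p * iw p) * gI w δ p) ^ 2 = 4 * (iw p ^ 6 * (gI w δ p) ^ 2) := by
          ring
        rw [this]
        have : iw p ^ 6 * (gI w δ p) ^ 2 ≤ M ^ 6 * (M * gI δ δ p) :=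
          mul_le_mul (pow_le_pow_left₀ hi0.le hi1 6) a1 (sq_nonneg _) (by positivity)
        calc 4 * (iw p ^ 6 * (gI w δ p) ^ 2) ≤ 4 * (M ^ 6 * (M * gI δ δ p)) := by linarith
          _ = _ := by ring
      have b4 : M ^ 4 ≤ M ^ 7 := pow_le_pow_right₀ hM (by norm_num)
      have b5 : 0 ≤ Lap δ p * Lap δ p := mul_self_nonneg _
      have b6 : 0 ≤ M ^ 7 * (Lap δ p * Lap δ p) := by positivity
      have b7 : 0 ≤ M ^ 7 * gI δ δ p := by positivity
      have b8 : M ^ 4 * (Lap δ p * Lap δ p) ≤ M ^ 7 * (Lap δ p * Lap δ p) :=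
        mul_le_mul_of_nonneg_right b4 b5
      nlinarith
    -- young
    have y1 : k p * z p ≤ 20 * M ^ 8 * (k p * k p) + 1 / (80 * M ^ 8) * z p ^ 2 := by
      have hM8 : 0 < M ^ 8 := by positivity
      have : 0 ≤ (20 * M ^ 8) * (k p - 1 / (40 * M ^ 8) * z p) ^ 2 := by positivity
      have e : (20 * M ^ 8) * (k p - 1 / (40 * M ^ 8) * z p) ^ 2
          = 20 * M ^ 8 * (k p * k p) - k p * z p + 1 / (80 * M ^ 8) * z p ^ 2 := by
        field_simp
        ring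
      linarith
    have y2 : 1 / (80 * M ^ 8) * z p ^ 2 ≤ 1 / (3 * M) * (Lap δ p * Lap δ p + gI δ δ p) := by
      have : 1 / (80 * M ^ 8) * z p ^ 2 ≤
          1 / (80 * M ^ 8) * (10 * M ^ 7 * (Lap δ p * Lap δ p + gI δ δ p)) :=
        mul_le_mul_of_nonneg_left a2 (by positivity)
      refine this.trans ?_
      have e : 1 / (80 * M ^ 8) * (10 * M ^ 7 * (Lap δ p * Lap δ p + gI δ δ p))
          = 1 / (8 * M) * (Lap δ p * Lap δ p + gI δ δ p) := by
        field_simp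
        ring
      rw [e]
      apply mul_le_mul_of_nonneg_right _ (by nlinarith [mul_self_nonneg (Lap δ p)])
      apply one_div_le_one_div_of_le (by positivity)
      linarith
    linarith
  have e5 : I (k * z) ≤ 20 * M ^ 8 * I (k * k) + 1 / (3 * M) * (L + G) := by
    have := I_mono (f := k * z) (g := (20 * M ^ 8) • (k * k) + (1 / (3 * M)) •
      (Lap δ * Lap δ + gI δ δ)) fun p => by
      exact e4 p
    rw [map_add, map_smul, map_smul, map_add, smul_eq_mul, smul_eq_mul] at this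
    exact this
  rw [← e1] at e5
  have hL0 : 0 ≤ L := I_nonneg fun p => mul_self_nonneg _
  have hkk0 : 0 ≤ I (k * k) := I_nonneg fun p => mul_self_nonneg _
  -- combine: 2/M (L/2 - G) ≤ 20 M^8 I + (L+G)/(3M)
  have e6 : 2 * (1 / M * (1 / 2 * L - G)) ≤ 20 * M ^ 8 * I (k * k) + 1 / (3 * M) * (L + G) := by
    linarith
  have e7 : 2 * (1 / 2 * L - G) ≤ 20 * M ^ 9 * I (k * k) + 1 / 3 * (L + G) := by
    have := mul_le_mul_of_nonneg_left e6 hM0.le
    have r1 : M * (2 * (1 / M * (1 / 2 * L - G))) = 2 * (1 / 2 * L - G) := by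
      field_simp
    have r2 : M * (20 * M ^ 8 * I (k * k) + 1 / (3 * M) * (L + G))
        = 20 * M ^ 9 * I (k * k) + 1 / 3 * (L + G) := by
      field_simp
    rw [r1, r2] at this
    exact this
  -- L - 2G - L/3 - G/3 = 2/3 L - 7/3 G ≥ 2/3 L - 7/18 L = 5/18 L
  nlinarith

end PLx

end Pool.Agent.helper68.S2
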