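import Mathlib
import Pool.Agent.helper99.S2P.B

/-!
# Static Polyak-Lojasiewicz inequality, part C: the Lyapunov function along segments
-/

set_option autoImplicit false

open MeasureTheory Metric Set Filter
open scoped ContDiff Topology

namespace Pool.Agent.helper68.S2

namespace PLx

theorem Ex_neg_Lg {w : SS} (hw : ∀ p, 0 < w p) : Ex 2 (-Lg w) = Inv w * Inv w := by
  apply ssext
  intro p
  rw [Ex_apply, ss_neg, Lg_apply hw, ss_mul, Inv_apply hw]
  have : (2 : ℝ) * -Real.log (w p) = -Real.log (w p) + -Real.log (w p) := by ring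
  rw [this, Real.exp_add, Real.exp_neg, Real.exp_log (hw p)]

theorem Pc_neg_Lg {w : SS} (hw : ∀ p, 0 < w p) : Pc (-Lg w) = Inv w * Inv w * Kc w := by
  have h := Inv_mul hw
  have hX := X_Inv hw
  unfold Pc Kc gI
  simp only [Lap_eq, map_neg, X_Lg hw, X_mul, hX]
  linear_combination (-(Inv w * (X 0 (X 0 w) + X 1 (X 1 w) + X 2 (X 2 w))) - (Inv w * w + 1)) * h

theorem I_gauss {w : SS} (hw : ∀ p, 0 < w p) : I (Inv w * Inv w * Kc w) = 4 * Real.pi := by
  rw [← Pc_neg_Lg hw, I_Pc]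

/-- the mean curvature of `w⁻² ds²` -/
noncomputable def la (w : SS) : ℝ := 4 * Real.pi / I (Inv w * Inv w)

theorem CC_seg (g h : SS) (J : Set ℝ) : CC J (fun t => g + t • h) :=
  (CC.const g).add (CC.smul continuousOn_id (CC.const h))

theorem CD_seg (g h : SS) (J : Set ℝ) : CD J (fun t => g + t • h) (fun _ => h) := by
  refine ((CD.const g).add (CD.smul (a := fun t => t) (a' := fun _ => 1)
    (fun t _ => hasDerivWithinAt_id t J) (CD.const h))).congr (fun _ _ => rfl) fun t _ => ?_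
  simp

theorem dDn_seg {g h : SS} (hpos : ∀ t ∈ Icc (0 : ℝ) 1, ∀ p, 0 < (g + t • h) p) {t : ℝ}
    (ht : t ∈ Icc (0 : ℝ) 1) :
    HasDerivWithinAt (fun s => Dn (-Lg (g + s • h)))
      (-(1 / (2 * Real.pi)) * (I (Inv (g + t • h) * Inv (g + t • h) * Inv (g + t • h)
          * Kc (g + t • h) * h)
        - la (g + t • h) * I (Inv (g + t • h) * Inv (g + t • h) * Inv (g + t • h) * h)))
      (Icc 0 1) t := by
  have hJ : Convex ℝ (Icc (0 : ℝ) 1) := convex_Icc 0 1
  have hcw : CC (Icc (0 : ℝ) 1) (fun t => g + t • h) := CC_seg g h _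
  have hdw : CD (Icc (0 : ℝ) 1) (fun t => g + t • h) (fun _ => h) := CD_seg g h _
  have hcu : CC (Icc (0 : ℝ) 1) (fun t => -Lg (g + t • h)) := (hcw.Lg hpos).neg
  have hcv : CC (Icc (0 : ℝ) 1) (fun t => -(Inv (g + t • h) * h)) :=
    ((hcw.Inv hpos).mul (CC.const h)).neg
  have hdu : CD (Icc (0 : ℝ) 1) (fun t => -Lg (g + t • h)) (fun t => -(Inv (g + t • h) * h)) :=
    (hdw.Lg hpos).neg
  have hE := dEn_curve hJ hcu hcv hdu ht
  have hA : HasDerivWithinAt (fun s => ar (-Lg (g + s • h)))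
      (I ((2 : ℝ) • (Ex 2 (-Lg (g + t • h)) * -(Inv (g + t • h) * h)))) (Icc 0 1) t :=
    I_deriv (v := fun t => (2 : ℝ) • (Ex 2 (-Lg (g + t • h)) * -(Inv (g + t • h) * h))) hJ
      ((hdu.Ex 2) 0) ((((hcu.Ex 2).mul hcv).smul continuousOn_const) 0) ht
  have hpi := Real.pi_pos
  have har : 0 < ar (-Lg (g + t • h)) := ar_pos _
  have h1 := (hE.div_const (4 * Real.pi)).sub ((hA.div_const (4 * Real.pi)).log
    (by positivity))
  refine h1.congr_deriv ?_
  set w := g + t • h with hw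
  have hwp : ∀ p, 0 < w p := hpos t ht
  have e1 : ar (-Lg w) = I (Inv w * Inv w) := by
    unfold ar
    rw [Ex_neg_Lg hwp]
  rw [Pc_neg_Lg hwp, Ex_neg_Lg hwp, e1]
  rw [e1] at har
  have e2 : Inv w * Inv w * Kc w * -(Inv w * h) = -(Inv w * Inv w * Inv w * Kc w * h) := by ring
  have e3 : Inv w * Inv w * -(Inv w * h) = -(Inv w * Inv w * Inv w * h) := by ring
  rw [e2, e3, smul_neg, map_neg, map_neg, map_smul, smul_eq_mul]
  unfold la
  field_simp
  ring

theorem Dn_seg_le {g h : SS} (hpos : ∀ t ∈ Icc (0 : ℝ) 1, ∀ p, 0 < (g + t • h) p) {B : ℝ}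
    (hB : ∀ t ∈ Icc (0 : ℝ) 1, |I (Inv (g + t • h) * Inv (g + t • h) * Inv (g + t • h)
          * Kc (g + t • h) * h)
        - la (g + t • h) * I (Inv (g + t • h) * Inv (g + t • h) * Inv (g + t • h) * h)| ≤ B) :
    |Dn (-Lg (g + h)) - Dn (-Lg g)| ≤ B := by
  have hpi := Real.pi_gt_three
  have key := (convex_Icc (0 : ℝ) 1).norm_image_sub_le_of_norm_hasDerivWithin_le
    (f := fun s => Dn (-Lg (g + s • h))) (C := B) (x := 0) (y := 1)
    (fun t ht => dDn_seg hpos ht) (fun t ht => by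
      rw [Real.norm_eq_abs, abs_mul]
      have h1 : |-(1 / (2 * Real.pi))| ≤ 1 := by
        rw [abs_neg, abs_of_pos (by positivity), div_le_one (by positivity)]
        linarith
      have h2 := hB t ht
      have h3 : 0 ≤ |I (Inv (g + t • h) * Inv (g + t • h) * Inv (g + t • h)
          * Kc (g + t • h) * h)
        - la (g + t • h) * I (Inv (g + t • h) * Inv (g + t • h) * Inv (g + t • h) * h)| :=
        abs_nonneg _
      calc _ ≤ 1 * |I (Inv (g + t • h) * Inv (g + t • h) * Inv (g + t • h)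
          * Kc (g + t • h) * h)
        - la (g + t • h) * I (Inv (g + t • h) * Inv (g + t • h) * Inv (g + t • h) * h)| :=
            mul_le_mul_of_nonneg_right h1 h3
        _ ≤ B := by rw [one_mul]; exact h2)
    (by simp) (by simp)
  simpa using key

theorem Dn_zero : Dn 0 = 0 := by
  unfold Dn En ar
  have h1 : Ex 2 (0 : SS) = 1 := ssext fun p => by rw [Ex_apply, ss_zero, ss_one]; simp
  rw [h1, I_one]
  have hpi := Real.pi_pos
  simp only [map_zero, mul_zero, Finset.sum_const_zero, add_zero, zero_div]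
  rw [div_self (by positivity), Real.log_one, sub_zero]

theorem Lg_one : Lg (1 : SS) = 0 := ssext fun p => by
  rw [Lg_apply (fun p => by rw [ss_one]; exact one_pos), ss_one, Real.log_one, ss_zero]

theorem aff_apply (a : ℝ) (b : Fin 3 → ℝ) (p : Sph) :
    aff a b p = a + (b 0 * co 0 p + b 1 * co 1 p + b 2 * co 2 p) := by
  unfold aff
  simp only [ss_add, ss_smul, ss_one, mul_one]

theorem X_aff0 (a : ℝ) (b : Fin 3 → ℝ) (p : Sph) :
    X 0 (aff a b) p = -(b 1 * co 2 p) + b 2 * co 1 p := by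
  unfold aff
  simp only [map_add, X_smul, X_co00, X_co01, X_co02, X_one_ss, ss_add, ss_smul, ss_neg, ss_zero]
  ring
theorem X_aff1 (a : ℝ) (b : Fin 3 → ℝ) (p : Sph) :
    X 1 (aff a b) p = b 0 * co 2 p - b 2 * co 0 p := by
  unfold aff
  simp only [map_add, X_smul, X_co10, X_co11, X_co12, X_one_ss, ss_add, ss_smul, ss_neg, ss_zero]
  ring
theorem X_aff2 (a : ℝ) (b : Fin 3 → ℝ) (p : Sph) :
    X 2 (aff a b) p = -(b 0 * co 1 p) + b 1 * co 0 p := by
  unfold aff
  simp only [map_add, X_smul, X_co20, X_co21, X_co22, X_one_ss, ss_add, ss_smul, ss_neg, ss_zero]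
  ring
theorem Lap_aff (a : ℝ) (b : Fin 3 → ℝ) (p : Sph) :
    Lap (aff a b) p = -2 * (b 0 * co 0 p + b 1 * co 1 p + b 2 * co 2 p) := by
  unfold aff
  have : Lap (1 : SS) = 0 := by rw [Lap_eq]; simp only [X_one_ss, map_zero, add_zero]
  simp only [map_add, map_smul, Lap_co, this, ss_add, ss_smul, ss_zero]
  ring

theorem Kc_aff (a : ℝ) (b : Fin 3 → ℝ) :
    Kc (aff a b) = algebraMap ℝ SS (a ^ 2 - (b 0 ^ 2 + b 1 ^ 2 + b 2 ^ 2)) := by
  apply ssext
  intro p
  unfold Kc
  rw [ss_algebraMap, ss_add, ss_sub, ss_mul, ss_mul, gI_apply, X_aff0, X_aff1, X_aff2, Lap_aff,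
    aff_apply]
  have h := co_sq p
  linear_combination (-(b 0 ^ 2 + b 1 ^ 2 + b 2 ^ 2)) * h

theorem la_of_const {w : SS} (hw : ∀ p, 0 < w p) {κ : ℝ} (h : Kc w = algebraMap ℝ SS κ) :
    la w = κ := by
  have h1 := I_gauss hw
  rw [h, mul_comm, ← Algebra.smul_def, map_smul, smul_eq_mul] at h1
  have h2 : 0 < I (Inv w * Inv w) := I_pos fun p => mul_pos (Inv_pos hw p) (Inv_pos hw p)
  unfold la
  rw [← h1]
  field_simp

/-- the Lyapunov function vanishes on conformal factors -/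
theorem Dn_aff {a : ℝ} {b : Fin 3 → ℝ} (hpos : ∀ p, 0 < aff a b p) : Dn (-Lg (aff a b)) = 0 := by
  have hseg : ∀ t : ℝ, (1 : SS) + t • (aff a b - 1) = aff (1 + t * (a - 1)) (fun i => t * b i) := by
    intro t
    apply ssext
    intro p
    rw [aff_apply, ss_add, ss_smul, ss_sub, aff_apply, ss_one]
    ring
  have hpos' : ∀ t ∈ Icc (0 : ℝ) 1, ∀ p, 0 < ((1 : SS) + t • (aff a b - 1)) p := by
    intro t ht p
    rw [ss_add, ss_smul, ss_sub, ss_one]
    have := hpos p
    have e : 1 + t * (aff a b p - 1) = (1 - t) + t * aff a b p := by ring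
    rw [e]
    rcases eq_or_lt_of_le ht.1 with h0 | h0
    · rw [← h0]; norm_num
    · have : 0 < t * aff a b p := mul_pos h0 this
      linarith [ht.2]
  have key := Dn_seg_le (g := 1) (h := aff a b - 1) hpos' (B := 0) (fun t ht => by
    have hw := hpos' t ht
    have hK : Kc ((1 : SS) + t • (aff a b - 1)) = algebraMap ℝ SS ((1 + t * (a - 1)) ^ 2
      - ((t * b 0) ^ 2 + (t * b 1) ^ 2 + (t * b 2) ^ 2)) := by
      rw [hseg, Kc_aff]
    rw [la_of_const hw hK, hK]
    set w := (1 : SS) + t • (aff a b - 1)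
    set κ := (1 + t * (a - 1)) ^ 2 - ((t * b 0) ^ 2 + (t * b 1) ^ 2 + (t * b 2) ^ 2)
    have e : Inv w * Inv w * Inv w * algebraMap ℝ SS κ * (aff a b - 1)
        = κ • (Inv w * Inv w * Inv w * (aff a b - 1)) := by
      rw [Algebra.smul_def]; ring
    rw [e, map_smul, smul_eq_mul, sub_self, abs_zero])
  rw [add_sub_cancel, Lg_one, neg_zero, Dn_zero, sub_zero] at key
  exact abs_nonpos_iff.mp key

theorem I_cs (g : SS) : (I g) ^ 2 ≤ 4 * Real.pi * I (g * g) := by
  have hpi := Real.pi_pos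
  set c := I g / (4 * Real.pi) with hc
  have hcI : I g = c * (4 * Real.pi) := by rw [hc]; field_simp
  have h1 : 0 ≤ I ((g - algebraMap ℝ SS c) * (g - algebraMap ℝ SS c)) :=
    I_nonneg fun p => mul_self_nonneg _
  have h2 : (g - algebraMap ℝ SS c) * (g - algebraMap ℝ SS c)
      = g * g - (2 * c) • g + algebraMap ℝ SS (c * c) := by
    apply ssext
    intro p
    simp only [ss_mul, ss_sub, ss_add, ss_smul, ss_algebraMap]
    ring
  rw [h2, map_add, map_sub, map_smul, I_const, smul_eq_mul, hcI] at h1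
  rw [hcI]
  have h3 : c * c * (4 * Real.pi) ≤ I (g * g) := by linarith
  have := mul_le_mul_of_nonneg_left h3 (show (0 : ℝ) ≤ 4 * Real.pi by positivity)
  nlinarith

theorem abs_I_le_I {f g : SS} (h : ∀ p, |f p| ≤ g p) : |I f| ≤ I g := by
  rw [abs_le]
  constructor
  · rw [← map_neg]
    exact I_mono fun p => by rw [ss_neg]; exact (abs_le.mp (h p)).1
  · exact I_mono fun p => (abs_le.mp (h p)).2

/-- the Lyapunov function is quadratically small near an affine function -/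
theorem Dn_near {a : ℝ} {b : Fin 3 → ℝ} {δ : SS} {N : ℝ} (hN : 1 ≤ N)
    (hpos : ∀ t ∈ Icc (0 : ℝ) 1, ∀ p, 1 / N ≤ (aff a b + t • δ) p)
    (hub : ∀ t ∈ Icc (0 : ℝ) 1, ∀ p, (aff a b + t • δ) p ≤ N)
    (hf : ∀ p, |aff a b p| ≤ N) (hfX : ∀ i p, |X i (aff a b) p| ≤ N)
    (hfL : ∀ p, |Lap (aff a b) p| ≤ N) (hd : ∀ p, |δ p| ≤ N) (hdX : ∀ i p, |X i δ p| ≤ N) :
    |Dn (-Lg (aff a b + δ))| ≤ 48 * N ^ 10 * I (Lap δ * Lap δ + δ * δ + gI δ δ) := by
  have hN0 : 0 < N := by linarith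
  have hpi := Real.pi_gt_three
  set Q := Lap δ * Lap δ + δ * δ + gI δ δ with hQ
  have hQp : ∀ p, Q p = Lap δ p * Lap δ p + δ p * δ p + (X 0 δ p * X 0 δ p + X 1 δ p * X 1 δ p
    + X 2 δ p * X 2 δ p) := fun p => rfl
  have hQ0 : ∀ p, 0 ≤ Q p := fun p => by
    rw [hQp]
    nlinarith [mul_self_nonneg (Lap δ p), mul_self_nonneg (δ p), mul_self_nonneg (X 0 δ p),
      mul_self_nonneg (X 1 δ p), mul_self_nonneg (X 2 δ p)]
  have hpos' : ∀ t ∈ Icc (0 : ℝ) 1, ∀ p, 0 < (aff a b + t • δ) p := fun t ht p =>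
    lt_of_lt_of_le (by positivity) (hpos t ht p)
  have hf0 : Dn (-Lg (aff a b)) = 0 := by
    apply Dn_aff
    intro p
    have := hpos' 0 (by simp) p
    rwa [zero_smul, add_zero] at this
  have key := Dn_seg_le (g := aff a b) (h := δ) hpos' (B := 48 * N ^ 10 * I Q) (fun t ht => ?_)
  · rwa [hf0, sub_zero] at key
  set f := aff a b with hf_def
  set w := f + t • δ with hw
  have hwp : ∀ p, 0 < w p := hpos' t ht
  set iw := Inv w with hiw
  have hiw0 : ∀ p, 0 < iw p := Inv_pos hwp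
  have hiw1 : ∀ p, iw p ≤ N := by
    intro p
    rw [hiw, Inv_apply hwp]
    have := hpos t ht p
    rw [inv_le_comm₀ (hwp p) hN0]
    rwa [one_div] at this
  have hiw2 : ∀ p, 1 / N ≤ iw p := by
    intro p
    rw [hiw, Inv_apply hwp, one_div]
    exact inv_anti₀ (hwp p) (hub t ht p)
  set κ := a ^ 2 - (b 0 ^ 2 + b 1 ^ 2 + b 2 ^ 2) with hκ
  have hKf : Kc f = algebraMap ℝ SS κ := Kc_aff a b
  set k := Kc w - algebraMap ℝ SS κ with hk
  have hk2 : ∀ p, k p * k p ≤ 47 * N ^ 2 * Q p := by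
    intro p
    have e1 : Kc w p = Kc f p + t * (f p * Lap δ p + δ p * Lap f p - 2 * gI f δ p + 2 * f p * δ p)
        + t ^ 2 * (δ p * Lap δ p - gI δ δ p + δ p * δ p) := by
      have e2 : Kc w = Kc f + t • (f * Lap δ + δ * Lap f - 2 * gI f δ + 2 * f * δ)
          + (t ^ 2) • (δ * Lap δ - gI δ δ + δ * δ) := by
        unfold Kc
        rw [hw, map_add, map_smul, gI_add_left, gI_add_right, gI_add_right, gI_smul_left,
          gI_smul_right, gI_smul_left, gI_smul_right, gI_comm δ f]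
        apply ssext
        intro q
        simp only [ss_add, ss_sub, ss_mul, ss_smul]
        have : (2 : SS) = algebraMap ℝ SS 2 := by
          rw [map_ofNat]
        rw [this, ss_algebraMap]
        ring
      rw [e2]
      simp only [ss_add, ss_sub, ss_mul, ss_smul]
      have : (2 : SS) = algebraMap ℝ SS 2 := by
        rw [map_ofNat]
      rw [this, ss_algebraMap]
    have e3 : k p = t * (f p * Lap δ p + δ p * Lap f p - 2 * gI f δ p + 2 * f p * δ p)
        + t ^ 2 * (δ p * Lap δ p - gI δ δ p + δ p * δ p) := by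
      rw [hk, ss_sub, e1, hKf, ss_algebraMap]
      ring
    have ht0 := ht.1
    have ht1 := ht.2
    have htt : t ^ 2 ≤ 1 := by nlinarith
    have htt0 : 0 ≤ t ^ 2 := sq_nonneg t
    have b1 : |k p| ≤ N * (2 * |Lap δ p| + 4 * |δ p| + 3 * |X 0 δ p| + 3 * |X 1 δ p|
        + 3 * |X 2 δ p|) := by
      have c1 : |f p * Lap δ p| ≤ N * |Lap δ p| := by
        rw [abs_mul]; exact mul_le_mul_of_nonneg_right (hf p) (abs_nonneg _)
      have c2 : |δ p * Lap f p| ≤ N * |δ p| := by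
        rw [abs_mul, mul_comm]; exact mul_le_mul_of_nonneg_right (hfL p) (abs_nonneg _)
      have c3 : |gI f δ p| ≤ N * (|X 0 δ p| + |X 1 δ p| + |X 2 δ p|) := by
        rw [gI_apply]
        refine (abs_add_three _ _ _).trans ?_
        rw [abs_mul, abs_mul, abs_mul, mul_add, mul_add]
        exact add_le_add (add_le_add
          (mul_le_mul_of_nonneg_right (hfX 0 p) (abs_nonneg _))
          (mul_le_mul_of_nonneg_right (hfX 1 p) (abs_nonneg _)))
          (mul_le_mul_of_nonneg_right (hfX 2 p) (abs_nonneg _))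
      have c4 : |f p * δ p| ≤ N * |δ p| := by
        rw [abs_mul]; exact mul_le_mul_of_nonneg_right (hf p) (abs_nonneg _)
      have c5 : |δ p * Lap δ p| ≤ N * |Lap δ p| := by
        rw [abs_mul]; exact mul_le_mul_of_nonneg_right (hd p) (abs_nonneg _)
      have c6 : |gI δ δ p| ≤ N * (|X 0 δ p| + |X 1 δ p| + |X 2 δ p|) := by
        rw [gI_apply]
        refine (abs_add_three _ _ _).trans ?_
        rw [abs_mul, abs_mul, abs_mul, mul_add, mul_add]
        exact add_le_add (add_le_add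
          (mul_le_mul_of_nonneg_right (hdX 0 p) (abs_nonneg _))
          (mul_le_mul_of_nonneg_right (hdX 1 p) (abs_nonneg _)))
          (mul_le_mul_of_nonneg_right (hdX 2 p) (abs_nonneg _))
      have c7 : |δ p * δ p| ≤ N * |δ p| := by
        rw [abs_mul]; exact mul_le_mul_of_nonneg_right (hd p) (abs_nonneg _)
      have g1 : |f p * Lap δ p + δ p * Lap f p - 2 * gI f δ p + 2 * f p * δ p| ≤
          N * |Lap δ p| + 3 * (N * |δ p|) + 2 * (N * (|X 0 δ p| + |X 1 δ p| + |X 2 δ p|)) := by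
        rw [abs_le] at c1 c2 c3 c4 ⊢
        constructor <;> linarith [c1.1, c1.2, c2.1, c2.2, c3.1, c3.2, c4.1, c4.2]
      have g2 : |δ p * Lap δ p - gI δ δ p + δ p * δ p| ≤
          N * |Lap δ p| + N * |δ p| + N * (|X 0 δ p| + |X 1 δ p| + |X 2 δ p|) := by
        rw [abs_le] at c5 c6 c7 ⊢
        constructor <;> linarith [c5.1, c5.2, c6.1, c6.2, c7.1, c7.2]
      rw [e3]
      refine (abs_add_le _ _).trans ?_
      rw [abs_mul, abs_mul, abs_of_nonneg ht0, abs_of_nonneg htt0]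
      have g3 := mul_le_mul ht1 g1 (abs_nonneg _) zero_le_one
      have g4 := mul_le_mul htt g2 (abs_nonneg _) zero_le_one
      linarith
    have b2 : k p * k p ≤ N ^ 2 * (2 * |Lap δ p| + 4 * |δ p| + 3 * |X 0 δ p| + 3 * |X 1 δ p|
        + 3 * |X 2 δ p|) ^ 2 := by
      rw [← mul_pow, ← sq, ← sq_abs (k p)]
      exact pow_le_pow_left₀ (abs_nonneg _) b1 2
    refine b2.trans ?_
    have b3 : (2 * |Lap δ p| + 4 * |δ p| + 3 * |X 0 δ p| + 3 * |X 1 δ p|
        + 3 * |X 2 δ p|) ^ 2 ≤ 47 * Q p := by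
      rw [hQp, ← abs_mul_abs_self (Lap δ p), ← abs_mul_abs_self (δ p),
        ← abs_mul_abs_self (X 0 δ p), ← abs_mul_abs_self (X 1 δ p), ← abs_mul_abs_self (X 2 δ p)]
      set A := |Lap δ p|
      set B := |δ p|
      set x := |X 0 δ p|
      set y := |X 1 δ p|
      set z := |X 2 δ p|
      nlinarith [sq_nonneg (4 * A - 2 * B), sq_nonneg (3 * A - 2 * x), sq_nonneg (3 * A - 2 * y),
        sq_nonneg (3 * A - 2 * z), sq_nonneg (3 * B - 4 * x), sq_nonneg (3 * B - 4 * y),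
        sq_nonneg (3 * B - 4 * z), sq_nonneg (3 * x - 3 * y), sq_nonneg (3 * x - 3 * z),
        sq_nonneg (3 * y - 3 * z)]
    calc _ ≤ N ^ 2 * (47 * Q p) := mul_le_mul_of_nonneg_left b3 (by positivity)
      _ = _ := by ring
  have hδQ : ∀ p, δ p * δ p ≤ Q p := by
    intro p
    rw [hQp]
    nlinarith [mul_self_nonneg (Lap δ p), mul_self_nonneg (X 0 δ p), mul_self_nonneg (X 1 δ p),
      mul_self_nonneg (X 2 δ p)]
  -- rewrite the quantity
  have r1 : I (iw * iw * iw * Kc w * δ) - la w * I (iw * iw * iw * δ)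
      = I (iw * iw * iw * k * δ) - (la w - κ) * I (iw * iw * iw * δ) := by
    have : iw * iw * iw * k * δ = iw * iw * iw * Kc w * δ - κ • (iw * iw * iw * δ) := by
      rw [hk, Algebra.smul_def]
      ring
    rw [this, map_sub, map_smul, smul_eq_mul]
    ring
  rw [r1]
  have hIQ : 0 ≤ I Q := I_nonneg hQ0
  -- first term
  have s1 : |I (iw * iw * iw * k * δ)| ≤ 24 * N ^ 5 * I Q := by
    have := abs_I_le_I (f := iw * iw * iw * k * δ) (g := (24 * N ^ 5) • Q) fun p => by
      rw [ss_smul]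
      have e : (iw * iw * iw * k * δ) p = iw p ^ 3 * (k p * δ p) := by
        simp only [ss_mul]; ring
      rw [e, abs_mul, abs_of_nonneg (pow_nonneg (hiw0 p).le 3)]
      have a1 : iw p ^ 3 ≤ N ^ 3 := pow_le_pow_left₀ (hiw0 p).le (hiw1 p) 3
      have a2 : |k p * δ p| ≤ 24 * N ^ 2 * Q p := by
        have b1 := hk2 p
        have b2 := hδQ p
        have b3 : Q p ≤ N ^ 2 * Q p := by
          have : 1 ≤ N ^ 2 := one_le_pow₀ hN
          nlinarith [hQ0 p]
        rw [abs_le]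
        constructor <;> nlinarith [sq_nonneg (k p - δ p), sq_nonneg (k p + δ p)]
      calc iw p ^ 3 * |k p * δ p| ≤ N ^ 3 * (24 * N ^ 2 * Q p) :=
            mul_le_mul a1 a2 (abs_nonneg _) (by positivity)
        _ = _ := by ring
    rwa [map_smul, smul_eq_mul] at this
  -- second term
  have hA : 4 * Real.pi / N ^ 2 ≤ I (iw * iw) := by
    have := I_mono (f := algebraMap ℝ SS (1 / N ^ 2)) (g := iw * iw) fun p => by
      rw [ss_algebraMap, ss_mul]
      have := hiw2 p
      calc 1 / N ^ 2 = 1 / N * (1 / N) := by field_simp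
        _ ≤ iw p * iw p := mul_le_mul this this (by positivity) (hiw0 p).le
    rw [I_const] at this
    calc 4 * Real.pi / N ^ 2 = 1 / N ^ 2 * (4 * Real.pi) := by ring
      _ ≤ _ := this
  have hApos : 0 < I (iw * iw) := lt_of_lt_of_le (by positivity) hA
  have r2 : (la w - κ) * I (iw * iw) = I (iw * iw * k) := by
    have e1 : iw * iw * k = iw * iw * Kc w - κ • (iw * iw) := by
      rw [hk, Algebra.smul_def]; ring
    rw [e1, map_sub, map_smul, I_gauss hwp, smul_eq_mul]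
    unfold la
    rw [← hiw]
    field_simp
  have s2 : (I (iw * iw * k)) ^ 2 ≤ 4 * Real.pi * (47 * N ^ 6 * I Q) := by
    refine (I_cs _).trans (mul_le_mul_of_nonneg_left ?_ (by positivity))
    have := I_mono (f := iw * iw * k * (iw * iw * k)) (g := (47 * N ^ 6) • Q) fun p => by
      rw [ss_smul]
      have e : (iw * iw * k * (iw * iw * k)) p = iw p ^ 4 * (k p * k p) := by
        simp only [ss_mul]; ring
      rw [e]
      have a1 : iw p ^ 4 ≤ N ^ 4 := pow_le_pow_left₀ (hiw0 p).le (hiw1 p) 4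
      calc iw p ^ 4 * (k p * k p) ≤ N ^ 4 * (47 * N ^ 2 * Q p) :=
            mul_le_mul a1 (hk2 p) (mul_self_nonneg _) (by positivity)
        _ = _ := by ring
    rwa [map_smul, smul_eq_mul] at this
  have s3 : (I (iw * iw * iw * δ)) ^ 2 ≤ 4 * Real.pi * (N ^ 6 * I Q) := by
    refine (I_cs _).trans (mul_le_mul_of_nonneg_left ?_ (by positivity))
    have := I_mono (f := iw * iw * iw * δ * (iw * iw * iw * δ)) (g := (N ^ 6) • Q) fun p => by
      rw [ss_smul]
      have e : (iw * iw * iw * δ * (iw * iw * iw * δ)) p = iw p ^ 6 * (δ p * δ p) := by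
        simp only [ss_mul]; ring
      rw [e]
      have a1 : iw p ^ 6 ≤ N ^ 6 := pow_le_pow_left₀ (hiw0 p).le (hiw1 p) 6
      exact mul_le_mul a1 (hδQ p) (mul_self_nonneg _) (by positivity)
    rwa [map_smul, smul_eq_mul] at this
  have s4 : 4 * Real.pi * (la w - κ) ^ 2 ≤ 47 * N ^ 10 * I Q := by
    have a1 : (la w - κ) ^ 2 * (4 * Real.pi / N ^ 2) ^ 2 ≤ 4 * Real.pi * (47 * N ^ 6 * I Q) := by
      calc (la w - κ) ^ 2 * (4 * Real.pi / N ^ 2) ^ 2 ≤ (la w - κ) ^ 2 * (I (iw * iw)) ^ 2 :=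
            mul_le_mul_of_nonneg_left (pow_le_pow_left₀ (by positivity) hA 2) (sq_nonneg _)
        _ = (I (iw * iw * k)) ^ 2 := by rw [← r2]; ring
        _ ≤ _ := s2
    have a2 : (la w - κ) ^ 2 * (4 * Real.pi / N ^ 2) ^ 2
        = 4 * Real.pi / N ^ 4 * (4 * Real.pi * (la w - κ) ^ 2) := by
      field_simp
    have a3 : 4 * Real.pi * (47 * N ^ 6 * I Q) = 4 * Real.pi / N ^ 4 * (47 * N ^ 10 * I Q) := by
      field_simp
    rw [a2, a3] at a1
    exact le_of_mul_le_mul_left a1 (by positivity)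
  have s5 : |(la w - κ) * I (iw * iw * iw * δ)| ≤ 24 * N ^ 10 * I Q := by
    have a0 : N ^ 6 ≤ N ^ 10 := pow_le_pow_right₀ hN (by norm_num)
    have a1 : N ^ 6 * I Q ≤ N ^ 10 * I Q := mul_le_mul_of_nonneg_right a0 hIQ
    have a2 : (I (iw * iw * iw * δ)) ^ 2 / (4 * Real.pi) ≤ N ^ 10 * I Q := by
      rw [div_le_iff₀ (by positivity)]
      nlinarith
    have h4 : 0 < 4 * Real.pi := by positivity
    set x := la w - κ
    set y := I (iw * iw * iw * δ)
    have a3 : |x * y| ≤ (4 * Real.pi * x ^ 2 + y ^ 2 / (4 * Real.pi)) / 2 := by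
      have q1 : 0 ≤ (4 * Real.pi * x - y) ^ 2 / (4 * Real.pi) := by positivity
      have q2 : 0 ≤ (4 * Real.pi * x + y) ^ 2 / (4 * Real.pi) := by positivity
      have q3 : (4 * Real.pi * x - y) ^ 2 / (4 * Real.pi)
          = 4 * Real.pi * x ^ 2 - 2 * (x * y) + y ^ 2 / (4 * Real.pi) := by
        field_simp
        ring
      have q4 : (4 * Real.pi * x + y) ^ 2 / (4 * Real.pi)
          = 4 * Real.pi * x ^ 2 + 2 * (x * y) + y ^ 2 / (4 * Real.pi) := by
        field_simp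
        ring
      rw [abs_le]
      constructor <;> linarith
    linarith
  have s6 : N ^ 5 ≤ N ^ 10 := pow_le_pow_right₀ hN (by norm_num)
  have s7 : N ^ 5 * I Q ≤ N ^ 10 * I Q := mul_le_mul_of_nonneg_right s6 hIQ
  calc _ ≤ |I (iw * iw * iw * k * δ)| + |(la w - κ) * I (iw * iw * iw * δ)| := abs_sub _ _
    _ ≤ 24 * N ^ 5 * I Q + 24 * N ^ 10 * I Q := add_le_add s1 s5
    _ ≤ _ := by linarith

end PLx

end Pool.Agent.helper68.S2
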