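import Mathlib
import Pool.Agent.helper99.S2P.C

/-!
# Static Polyak-Lojasiewicz inequality, part D: assembly (modulo the spectral facts)
-/

set_option autoImplicit false

open MeasureTheory Metric Set Filter
open scoped ContDiff Topology

namespace Pool.Agent.helper68.S2

namespace PLx

theorem I_co (k : Fin 3) : I (co k) = 0 := by
  have := I_Lap (co k)
  rw [Lap_co, map_smul, smul_eq_mul] at this
  linarith

theorem I_co01 : I (co 0 * co 1) = 0 := by
  have h := I_X 0 (co 0 * co 2)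
  rw [X_mul, X_co00, X_co02, zero_mul, zero_add] at h
  exact h
theorem I_co02 : I (co 0 * co 2) = 0 := by
  have h := I_X 0 (co 0 * co 1)
  rw [X_mul, X_co00, X_co01, zero_mul, zero_add,
    show co 0 * -co 2 = -(co 0 * co 2) by ring, map_neg] at h
  linarith
theorem I_co12 : I (co 1 * co 2) = 0 := by
  have h := I_X 1 (co 1 * co 0)
  rw [X_mul, X_co11, X_co10, zero_mul, zero_add] at h
  exact h

theorem I_co_sq : I (co 0 * co 0) = 4 * Real.pi / 3 ∧ I (co 1 * co 1) = 4 * Real.pi / 3 ∧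
    I (co 2 * co 2) = 4 * Real.pi / 3 := by
  have h0 := I_X 0 (co 1 * co 2)
  rw [X_mul, X_co01, X_co02, map_add, show -co 2 * co 2 = -(co 2 * co 2) by ring, map_neg] at h0
  have h1 := I_X 1 (co 0 * co 2)
  rw [X_mul, X_co10, X_co12, map_add, show co 0 * -co 0 = -(co 0 * co 0) by ring, map_neg] at h1
  have h2 := congrArg I co_sq'
  rw [map_add, map_add, I_one] at h2
  refine ⟨?_, ?_, ?_⟩ <;> linarith

theorem abs_aff_le {a e : ℝ} {b : Fin 3 → ℝ} (ha : |a| ≤ e) (hb : ∀ i, |b i| ≤ 3 * e) (p : Sph) :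
    |aff a b p| ≤ 10 * e ∧ (∀ i, |X i (aff a b) p| ≤ 6 * e) ∧ |Lap (aff a b) p| ≤ 18 * e := by
  have hco : ∀ i : Fin 3, |co i p| ≤ 1 := fun i => abs_coord_le (norm_sph p) i
  have hb0 := hb 0
  have hb1 := hb 1
  have hb2 := hb 2
  have he : 0 ≤ 3 * e := (abs_nonneg _).trans hb0
  have m : ∀ i j : Fin 3, |b i * co j p| ≤ 3 * e := fun i j => by
    rw [abs_mul]
    calc |b i| * |co j p| ≤ 3 * e * 1 := mul_le_mul (hb i) (hco j) (abs_nonneg _) he
      _ = _ := mul_one _
  refine ⟨?_, ?_, ?_⟩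
  · rw [aff_apply]
    have h0 := abs_le.mp (m 0 0)
    have h1 := abs_le.mp (m 1 1)
    have h2 := abs_le.mp (m 2 2)
    have h3 := abs_le.mp ha
    rw [abs_le]
    constructor <;> linarith [h0.1, h0.2, h1.1, h1.2, h2.1, h2.2, h3.1, h3.2]
  · intro i
    fin_cases i
    · change |X 0 (aff a b) p| ≤ _
      rw [X_aff0]
      have h0 := abs_le.mp (m 1 2)
      have h1 := abs_le.mp (m 2 1)
      rw [abs_le]
      constructor <;> linarith [h0.1, h0.2, h1.1, h1.2]
    · change |X 1 (aff a b) p| ≤ _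
      rw [X_aff1]
      have h0 := abs_le.mp (m 0 2)
      have h1 := abs_le.mp (m 2 0)
      rw [abs_le]
      constructor <;> linarith [h0.1, h0.2, h1.1, h1.2]
    · change |X 2 (aff a b) p| ≤ _
      rw [X_aff2]
      have h0 := abs_le.mp (m 0 1)
      have h1 := abs_le.mp (m 1 0)
      rw [abs_le]
      constructor <;> linarith [h0.1, h0.2, h1.1, h1.2]
  · rw [Lap_aff]
    have h0 := abs_le.mp (m 0 0)
    have h1 := abs_le.mp (m 1 1)
    have h2 := abs_le.mp (m 2 2)
    rw [abs_le]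
    constructor <;> linarith [h0.1, h0.2, h1.1, h1.2, h2.1, h2.2]

theorem abs_Dn_le {u : SS} {C : ℝ} (hu : ∀ p, |u p| ≤ C) (hX : ∀ i p, |X i u p| ≤ C) :
    |Dn u| ≤ 3 * C ^ 2 + 4 * C := by
  have hC : 0 ≤ C := (abs_nonneg _).trans (hu (proj 0))
  have hpi := Real.pi_pos
  have h1 : ∀ i, |I (X i u * X i u)| ≤ C ^ 2 * (4 * Real.pi) := fun i => abs_I_le fun p => by
    rw [ss_mul, abs_mul, sq]
    exact mul_le_mul (hX i p) (hX i p) (abs_nonneg _) hC
  have h2 : |I u| ≤ C * (4 * Real.pi) := abs_I_le hu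
  have hE : |En u| ≤ (3 * C ^ 2 + 2 * C) * (4 * Real.pi) := by
    unfold En
    rw [Fin.sum_univ_three]
    have a0 := abs_le.mp (h1 0)
    have a1 := abs_le.mp (h1 1)
    have a2 := abs_le.mp (h1 2)
    have a3 := abs_le.mp h2
    rw [abs_le]
    constructor <;> linarith [a0.1, a0.2, a1.1, a1.2, a2.1, a2.2, a3.1, a3.2]
  have hE' : |En u / (4 * Real.pi)| ≤ 3 * C ^ 2 + 2 * C := by
    rw [abs_div, abs_of_pos (show (0 : ℝ) < 4 * Real.pi by positivity), div_le_iff₀ (by positivity)]
    exact hE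
  have l1 : Real.exp (-(2 * C)) ≤ ar u / (4 * Real.pi) := by
    rw [le_div_iff₀ (by positivity), ← I_const]
    exact I_mono fun p => by
      rw [ss_algebraMap, Ex_apply]
      apply Real.exp_le_exp.mpr
      have := (abs_le.mp (hu p)).1
      linarith
  have l2 : ar u / (4 * Real.pi) ≤ Real.exp (2 * C) := by
    rw [div_le_iff₀ (by positivity), ← I_const]
    exact I_mono fun p => by
      rw [ss_algebraMap, Ex_apply]
      apply Real.exp_le_exp.mpr
      have := (abs_le.mp (hu p)).2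
      linarith
  have hlog : |Real.log (ar u / (4 * Real.pi))| ≤ 2 * C := by
    rw [abs_le]
    constructor
    · rw [← Real.log_exp (-(2 * C))]
      exact Real.log_le_log (Real.exp_pos _) l1
    · rw [← Real.log_exp (2 * C)]
      exact Real.log_le_log (lt_of_lt_of_le (Real.exp_pos _) l1) l2
  unfold Dn
  refine (abs_sub _ _).trans ?_
  linarith

theorem Yn_nonneg' {u : SS} (h : ∀ p, 0 ≤ Pc u p) : 0 ≤ Yn u :=
  I_nonneg fun p => by
    rw [ss_mul, ss_mul]
    exact mul_nonneg (mul_self_nonneg _) (h p)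

theorem PL_of
    (hsup : ∃ A : ℝ, ∀ (f : SS) (p : Sph), |f p| ^ 2 ≤ A * (I (f * f) + I (Lap f * Lap f)))
    (gap2 : ∀ f : SS, I f = 0 → 2 * I (f * f) ≤ ∑ i, I (X i f * X i f))
    (gap6 : ∀ f : SS, I f = 0 → (∀ i, I (f * co i) = 0) →
      6 * ∑ i, I (X i f * X i f) ≤ I (Lap f * Lap f))
    (c C : ℝ) (hc : 0 < c) : ∃ B, ∀ u : SS, (∀ p, |u p| ≤ C) → (∀ i p, |X i u p| ≤ C) →
    (∀ p, c ≤ Pc u p) → (∀ p, Pc u p ≤ C) → |Dn u| ≤ B * Yn u := by
  obtain ⟨A0, hA0⟩ := hsup
  set e := Real.exp C with he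
  have he0 : 0 < e := Real.exp_pos _
  set M := max 1 (max e (3 * (e * C) ^ 2)) with hM
  have hM1 : 1 ≤ M := le_max_left _ _
  have hMe : e ≤ M := (le_max_left _ _).trans (le_max_right _ _)
  have hMg : 3 * (e * C) ^ 2 ≤ M := (le_max_right _ _).trans (le_max_right _ _)
  set N := max 1 (18 * e + e * C) with hN
  have hN1 : 1 ≤ N := le_max_left _ _
  have hN2 : 18 * e + e * C ≤ N := le_max_right _ _
  set CL := 100 * M ^ 9 * (e ^ 4 * C) with hCL
  set C5 := 3 * C ^ 2 + 4 * C with hC5
  refine ⟨48 * N ^ 10 * (2 * CL) + C5 * (4 * e ^ 2) * (|A0| * 2 * CL), fun u hu hX hPc hPC => ?_⟩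
  have hC : 0 ≤ C := (abs_nonneg _).trans (hu (proj 0))
  have he1 : 1 ≤ e := Real.one_le_exp hC
  have hpi := Real.pi_pos
  have hM0 : 0 < M := by linarith
  have hN0 : 0 < N := by linarith
  have hCL0 : 0 ≤ CL := by positivity
  have hC50 : 0 ≤ C5 := by positivity
  have hY0 : 0 ≤ Yn u := Yn_nonneg' fun p => (hc.trans_le (hPc p)).le
  -- the conformal factor
  set w := Ex (-1) u with hw
  have hwp : ∀ p, 0 < w p := Ex_pos _ _
  have hwv : ∀ p, w p = Real.exp (-u p) := fun p => by
    rw [hw, Ex_apply, neg_one_mul]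
  have hLg : -Lg w = u := ssext fun p => by
    rw [ss_neg, Lg_apply hwp, hwv, Real.log_exp, neg_neg]
  have hwe : ∀ p, w p ≤ e := fun p => by
    rw [hwv]
    apply Real.exp_le_exp.mpr
    linarith [(abs_le.mp (hu p)).1]
  have hiw : ∀ p, Inv w p = Real.exp (u p) := fun p => by
    rw [Inv_apply hwp, hwv, Real.exp_neg, inv_inv]
  have hiwe : ∀ p, Inv w p ≤ e := fun p => by
    rw [hiw]
    apply Real.exp_le_exp.mpr
    linarith [(abs_le.mp (hu p)).2]
  have hwe' : ∀ p, 1 / e ≤ w p := fun p => by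
    rw [one_div, hwv, he, ← Real.exp_neg]
    apply Real.exp_le_exp.mpr
    linarith [(abs_le.mp (hu p)).2]
  have hwX : ∀ i p, |X i w p| ≤ e * C := fun i p => by
    have : X i w p = -1 * (w p * X i u p) := by
      rw [hw, X_Ex]; rfl
    rw [this, neg_one_mul, abs_neg, abs_mul, abs_of_pos (hwp p)]
    exact mul_le_mul (hwe p) (hX i p) (abs_nonneg _) he0.le
  -- affine part
  set a := I w / (4 * Real.pi) with ha
  set b : Fin 3 → ℝ := fun i => 3 * I (w * co i) / (4 * Real.pi) with hb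
  set δ := w - aff a b with hδ
  have hdec : w = aff a b + δ := by rw [hδ]; ring
  have ha' : |a| ≤ e := by
    rw [ha, abs_div, abs_of_pos (show (0 : ℝ) < 4 * Real.pi by positivity),
      div_le_iff₀ (by positivity)]
    exact abs_I_le fun p => by rw [abs_of_pos (hwp p)]; exact hwe p
  have hb' : ∀ i, |b i| ≤ 3 * e := fun i => by
    rw [hb]
    simp only
    rw [abs_div, abs_of_pos (show (0 : ℝ) < 4 * Real.pi by positivity),
      div_le_iff₀ (by positivity), abs_mul, abs_of_pos (show (0 : ℝ) < 3 by norm_num), mul_assoc]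
    apply mul_le_mul_of_nonneg_left _ (by norm_num)
    refine abs_I_le fun p => ?_
    rw [ss_mul, abs_mul, abs_of_pos (hwp p)]
    calc w p * |co i p| ≤ e * 1 :=
          mul_le_mul (hwe p) (abs_coord_le (norm_sph p) i) (abs_nonneg _) he0.le
      _ = e := mul_one e
  have haff := fun p => abs_aff_le ha' hb' p
  have h4 : (4 * Real.pi) ≠ 0 := by positivity
  have hIδ : I δ = 0 := by
    rw [hδ, map_sub]
    unfold aff
    simp only [map_add, map_smul, I_one, I_co, smul_eq_mul]
    rw [ha]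
    field_simp
    ring
  have hIδco : ∀ i, I (δ * co i) = 0 := by
    obtain ⟨q0, q1, q2⟩ := I_co_sq
    intro i
    have e1 : I (aff a b * co i) = a * I (co i) + (b 0 * I (co 0 * co i) + b 1 * I (co 1 * co i)
        + b 2 * I (co 2 * co i)) := by
      unfold aff
      simp only [add_mul, smul_mul_assoc, one_mul, map_add, map_smul, smul_eq_mul]
    rw [hδ, sub_mul, map_sub, e1, I_co]
    fin_cases i
    · simp only [Fin.zero_eta, Fin.isValue]
      rw [q0, mul_comm (co 1) (co 0), mul_comm (co 2) (co 0), I_co01, I_co02]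
      simp only [hb]
      field_simp
      ring
    · simp only [Fin.mk_one, Fin.isValue]
      rw [q1, mul_comm (co 2) (co 1), I_co01, I_co12]
      simp only [hb]
      field_simp
      ring
    · simp only [Fin.reduceFinMk, Fin.isValue]
      rw [q2, I_co02, I_co12]
      simp only [hb]
      field_simp
      ring
  have hgI : I (gI δ δ) = ∑ i, I (X i δ * X i δ) := by
    rw [Fin.sum_univ_three]
    unfold gI
    rw [map_add, map_add]
  have hg6 := gap6 δ hIδ hIδco
  have hg2 := gap2 δ hIδ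
  rw [← hgI] at hg6 hg2
  -- curvature
  set lm := lam u with hlm
  have hK : ∀ p, Kc w p = w p ^ 2 * Pc u p := by
    intro p
    have h1 := Pc_neg_Lg hwp
    rw [hLg] at h1
    rw [h1, ss_mul, ss_mul, Inv_apply hwp]
    have := (hwp p).ne'
    field_simp
  have hFq : ∀ p, Fq u p = lm * (Inv w p * Inv w p * (Pc u p)⁻¹) := by
    intro p
    have h1 := Ex_neg_Lg hwp
    rw [hLg] at h1
    unfold Fq
    rw [ss_smul, ss_mul, h1, ss_mul, Inv_apply (f := Pc u) (fun q => hc.trans_le (hPc q))]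
  have hkk : I ((Kc w - algebraMap ℝ SS lm) * (Kc w - algebraMap ℝ SS lm)) ≤ e ^ 4 * C * Yn u := by
    have := I_mono (f := (Kc w - algebraMap ℝ SS lm) * (Kc w - algebraMap ℝ SS lm))
      (g := (e ^ 4 * C) • ((Fq u - 1) * (Fq u - 1) * Pc u)) fun p => by
      rw [ss_smul]
      simp only [ss_mul, ss_sub, ss_algebraMap, ss_one]
      rw [hK p, hFq p, Inv_apply hwp]
      have hP : 0 < Pc u p := hc.trans_le (hPc p)
      have hwpp := hwp p
      have e1 : (w p ^ 2 * Pc u p - lm) * (w p ^ 2 * Pc u p - lm)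
          = w p ^ 4 * Pc u p * ((lm * ((w p)⁻¹ * (w p)⁻¹ * (Pc u p)⁻¹) - 1)
            * (lm * ((w p)⁻¹ * (w p)⁻¹ * (Pc u p)⁻¹) - 1) * Pc u p) := by
        field_simp
        ring
      rw [e1]
      apply mul_le_mul_of_nonneg_right
      · exact mul_le_mul (pow_le_pow_left₀ hwpp.le (hwe p) 4) (hPC p) hP.le (by positivity)
      · exact mul_nonneg (mul_self_nonneg _) hP.le
    rwa [map_smul, smul_eq_mul] at this
  -- the core estimate
  have hL : I (Lap δ * Lap δ) ≤ CL * Yn u := by
    have h1 := core hwp hdec hM1 (fun p => (hwe p).trans hMe) (fun p => (hiwe p).trans hMe)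
      (fun p => by
        rw [gI_apply]
        have hx : ∀ i, X i w p * X i w p ≤ (e * C) ^ 2 := fun i => by
          rw [← abs_mul_abs_self, sq]
          exact mul_le_mul (hwX i p) (hwX i p) (abs_nonneg _) (by positivity)
        have h0 := hx 0
        have h1 := hx 1
        have h2 := hx 2
        linarith) lm hg6
    refine h1.trans ?_
    have := mul_le_mul_of_nonneg_left hkk (show (0 : ℝ) ≤ 100 * M ^ 9 by positivity)
    calc _ ≤ 100 * M ^ 9 * (e ^ 4 * C * Yn u) := this
      _ = _ := by rw [hCL]; ring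
  set L := I (Lap δ * Lap δ) with hLdef
  have hL0 : 0 ≤ L := I_nonneg fun p => mul_self_nonneg _
  have hG0 : 0 ≤ I (gI δ δ) := I_nonneg (gI_self_nonneg δ)
  have hD0 : 0 ≤ I (δ * δ) := I_nonneg fun p => mul_self_nonneg _
  have hQ : I (Lap δ * Lap δ + δ * δ + gI δ δ) ≤ 2 * L := by
    rw [map_add, map_add]
    linarith
  have hδval : ∀ p, δ p = w p - aff a b p := fun p => rfl
  by_cases hcase : ∀ p, |δ p| ≤ 1 / (2 * e)
  · have hw1 : ∀ t ∈ Icc (0 : ℝ) 1, ∀ p, (aff a b + t • δ) p = w p - (1 - t) * δ p := by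
      intro t _ p
      rw [ss_add, ss_smul, hδval]
      ring
    have hsm : ∀ t ∈ Icc (0 : ℝ) 1, ∀ p, |(1 - t) * δ p| ≤ 1 / (2 * e) := by
      intro t ht p
      rw [abs_mul, abs_of_nonneg (by linarith [ht.2])]
      calc (1 - t) * |δ p| ≤ 1 * |δ p| :=
            mul_le_mul_of_nonneg_right (by linarith [ht.1]) (abs_nonneg _)
        _ ≤ _ := by rw [one_mul]; exact hcase p
    have h1 := Dn_near (a := a) (b := b) (δ := δ) (N := N) hN1
      (fun t ht p => by
        rw [hw1 t ht p]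
        have h2 := (abs_le.mp (hsm t ht p)).2
        have h3 := hwe' p
        have h4 : 1 / N ≤ 1 / (2 * e) := by
          apply one_div_le_one_div_of_le (by positivity)
          nlinarith [mul_nonneg he0.le hC]
        have h5 : 1 / e = 1 / (2 * e) + 1 / (2 * e) := by field_simp; ring
        linarith)
      (fun t ht p => by
        rw [hw1 t ht p]
        have h2 := (abs_le.mp (hsm t ht p)).1
        have h3 := hwe p
        have h4 : 1 / (2 * e) ≤ 1 := by
          rw [div_le_one (by positivity)]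
          linarith
        nlinarith [mul_nonneg he0.le hC])
      (fun p => (haff p).1.trans (by nlinarith [mul_nonneg he0.le hC]))
      (fun i p => ((haff p).2.1 i).trans (by nlinarith [mul_nonneg he0.le hC]))
      (fun p => (haff p).2.2.trans (by nlinarith [mul_nonneg he0.le hC]))
      (fun p => (hcase p).trans (by
        have h4 : 1 / (2 * e) ≤ 1 := by
          rw [div_le_one (by positivity)]
          linarith
        linarith))
      (fun i p => by
        have : X i δ p = X i w p - X i (aff a b) p := by rw [hδ, map_sub]; rfl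
        rw [this]
        refine (abs_sub _ _).trans ?_
        have h5 := hwX i p
        have h6 := (haff p).2.1 i
        linarith)
    rw [← hdec, hLg] at h1
    calc |Dn u| ≤ 48 * N ^ 10 * I (Lap δ * Lap δ + δ * δ + gI δ δ) := h1
      _ ≤ 48 * N ^ 10 * (2 * L) := mul_le_mul_of_nonneg_left hQ (by positivity)
      _ ≤ 48 * N ^ 10 * (2 * (CL * Yn u)) :=
          mul_le_mul_of_nonneg_left (by linarith) (by positivity)
      _ = 48 * N ^ 10 * (2 * CL) * Yn u := by ring
      _ ≤ _ := by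
          apply mul_le_mul_of_nonneg_right _ hY0
          have : 0 ≤ C5 * (4 * e ^ 2) * (|A0| * 2 * CL) := by positivity
          linarith
  · push Not at hcase
    obtain ⟨p, hp⟩ := hcase
    have h1 : 1 / (4 * e ^ 2) ≤ |A0| * (2 * L) := by
      have h2 : 1 / (4 * e ^ 2) = (1 / (2 * e)) ^ 2 := by field_simp; ring
      rw [h2]
      calc (1 / (2 * e)) ^ 2 ≤ |δ p| ^ 2 := pow_le_pow_left₀ (by positivity) hp.le 2
        _ ≤ A0 * (I (δ * δ) + L) := hA0 δ p
        _ ≤ |A0| * (I (δ * δ) + L) :=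
            mul_le_mul_of_nonneg_right (le_abs_self _) (by linarith)
        _ ≤ |A0| * (2 * L) := mul_le_mul_of_nonneg_left (by linarith) (abs_nonneg _)
    have h2 : 1 ≤ 4 * e ^ 2 * (|A0| * (2 * L)) := by
      have := mul_le_mul_of_nonneg_left h1 (show (0 : ℝ) ≤ 4 * e ^ 2 by positivity)
      have e1 : 4 * e ^ 2 * (1 / (4 * e ^ 2)) = 1 := by field_simp
      linarith
    calc |Dn u| ≤ C5 := abs_Dn_le hu hX
      _ = C5 * 1 := (mul_one _).symm
      _ ≤ C5 * (4 * e ^ 2 * (|A0| * (2 * L))) := mul_le_mul_of_nonneg_left h2 hC50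
      _ ≤ C5 * (4 * e ^ 2 * (|A0| * (2 * (CL * Yn u)))) := by gcongr
      _ = C5 * (4 * e ^ 2) * (|A0| * 2 * CL) * Yn u := by ring
      _ ≤ _ := by
          apply mul_le_mul_of_nonneg_right _ hY0
          have : 0 ≤ 48 * N ^ 10 * (2 * CL) := by positivity
          linarith

end PLx

end Pool.Agent.helper68.S2
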